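import Pool.Agent.X75.ChromH4

/-!
# MP_f4be1e_co: partial-sum inequalities for the chromatic h-polynomial

For every finite simple graph `G` on `d ≥ 1` vertices, with
`∑ χ_G(n) z^n = h(z) / (1 - z)^(d+1)` and `h(z) = ∑ h_i z^i`,
`h_d + ... + h_{d-i+1} - (h_0 + ... + h_i) ≥ 0` for all `0 ≤ i ≤ d`.
-/

set_option autoImplicit false

namespace Pool.Agent.Results.MP_f4be1e_co.PartialSums

open Polynomial

/-- `χ_G(n)`, the number of proper colourings of `G` with the colours `Fin n`. -/
noncomputable def chromaticCount {V : Type*} (G : SimpleGraph V) (n : ℕ) : ℕ :=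
  Nat.card (G.Coloring (Fin n))

/-- `h` is the chromatic numerator of `G`:
`h(z) = (1 - z)^(d+1) * ∑_n χ_G(n) z^n` as formal power series, with `d = |V|`. -/
def IsChromaticNumerator {V : Type*} [Fintype V] (G : SimpleGraph V) (h : ℤ[X]) : Prop :=
  (h : PowerSeries ℤ) = (1 - PowerSeries.X) ^ (Fintype.card V + 1) *
    PowerSeries.mk (fun n => (chromaticCount G n : ℤ))

/-- the partial sum identity for a symmetric decomposition -/
lemma sum_identity (d : ℕ) (h a b : ℤ[X]) (hh : h = a + X * b)
    (ha : ∀ i, i ≤ d + 1 → a.coeff i = a.coeff (d + 1 - i))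
    (hb : ∀ i, i ≤ d → b.coeff i = b.coeff (d - i)) :
    ∀ i, i ≤ d + 1 →
      ∑ j ∈ Finset.range i, h.coeff (d + 1 - j) - ∑ j ∈ Finset.range (i + 1), h.coeff j
        = - a.coeff i := by
  intro i
  induction i with
  | zero =>
    intro _
    have : h.coeff 0 = a.coeff 0 := by rw [hh]; simp
    simp [this]
  | succ i ih =>
    intro hi
    rw [Finset.sum_range_succ, Finset.sum_range_succ (n := i + 1)]
    have h1 := ih (by omega)
    have h2 : h.coeff (d + 1 - i) = a.coeff (d + 1 - i) + b.coeff (d - i) := by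
      have : d + 1 - i = d - i + 1 := by omega
      rw [this, hh, coeff_add, coeff_X_mul]
    have h3 : h.coeff (i + 1) = a.coeff (i + 1) + b.coeff i := by
      rw [hh, coeff_add, coeff_X_mul]
    rw [h2, h3, ← ha i (by omega), ← hb i (by omega)]
    linarith

/-- **Main result.** For every finite simple graph `G` on `d ≥ 1` vertices there is a polynomial
`h` of degree at most `d` which is the chromatic numerator of `G`, and for every `0 ≤ i ≤ d`
(in particular for `1 ≤ i ≤ ⌊d/2⌋`), `h_d + ... + h_{d-i+1} - (h_0 + ... + h_i) ≥ 0`. -/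
theorem result {V : Type*} [Fintype V] [Nonempty V] (G : SimpleGraph V) :
    ∃ h : ℤ[X], IsChromaticNumerator G h ∧ h.natDegree ≤ Fintype.card V ∧
      ∀ i, i ≤ Fintype.card V →
        0 ≤ ∑ j ∈ Finset.range i, h.coeff (Fintype.card V - j) -
          ∑ j ∈ Finset.range (i + 1), h.coeff j := by
  obtain ⟨h, a, b, h1, h2, h3, h4, h5, h6, h7⟩ := Pool.Agent.X75.ChromH.main G
  refine ⟨h, h1, h2, ?_⟩
  obtain ⟨d, hd⟩ : ∃ d, Fintype.card V = d + 1 := ⟨Fintype.card V - 1, by
    have : 0 < Fintype.card V := Fintype.card_pos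
    omega⟩
  rw [hd] at h4 h5 ⊢
  intro i hi
  rw [sum_identity d h a b h3 h4.2 (by simpa using h5.2) i hi]
  have := h6 i
  omega

end Pool.Agent.Results.MP_f4be1e_co.PartialSums
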